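import Mathlib

namespace Pool.Agent.Results.MP_846ee0_co.Never

/-- the first exponentiation, as a family of sets -/
def E1 (p q : Ultrafilter ℕ+) : Set (Set ℕ+) :=
  {A | {n : ℕ+ | {m : ℕ+ | n ^ (m : ℕ) ∈ A} ∈ q} ∈ p}

/-- the second exponentiation, as a family of sets -/
def E2 (p q : Ultrafilter ℕ+) : Set (Set ℕ+) :=
  {A | {n : ℕ+ | {m : ℕ+ | m ^ (n : ℕ) ∈ A} ∈ q} ∈ p}

lemma sq_lt (k : ℕ) (hk : 5 ≤ k) : k ^ 2 < 2 ^ k := by
  induction k, hk using Nat.le_induction with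
  | base => norm_num
  | succ k hk ih => rw [pow_succ 2 k]; nlinarith

lemma sq_le (b : ℕ) (hb : 9 ≤ b) : (2 * b + 3) ^ 2 ≤ 2 ^ b := by
  induction b, hb using Nat.le_induction with
  | base => norm_num
  | succ k hk ih => rw [pow_succ 2 k]; nlinarith

def h (v : ℕ) : ℕ := (Nat.log 2 v) ^ 2

lemma h_lt {v : ℕ} (hv : 32 ≤ v) : h v < v := by
  have h1 : 5 ≤ Nat.log 2 v := Nat.le_log_of_pow_le (by norm_num) (by simpa using hv)
  exact lt_of_lt_of_le (sq_lt _ h1) (Nat.pow_log_le_self 2 (by omega))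

lemma h_mono {v w : ℕ} (hvw : v ≤ w) : h v ≤ h w :=
  Nat.pow_le_pow_left (Nat.log_mono_right hvw) 2

def lev (v : ℕ) : ℕ := if hv : 32 ≤ v then lev (h v) + 1 else 0
decreasing_by exact h_lt hv

lemma lev_eq {v : ℕ} (hv : 32 ≤ v) : lev v = lev (h v) + 1 := by rw [lev, dif_pos hv]

lemma lev_le (v : ℕ) : lev v ≤ lev (h v) + 1 := by
  rw [lev]; split_ifs <;> omega

lemma lev_mono (w : ℕ) : ∀ v, v ≤ w → lev v ≤ lev w := by
  induction w using Nat.strong_induction_on with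
  | _ w ih =>
    intro v hvw
    by_cases hv : 32 ≤ v
    · rw [lev_eq hv, lev_eq (hv.trans hvw)]
      have := ih (h w) (h_lt (hv.trans hvw)) (h v) (h_mono hvw)
      omega
    · rw [lev, dif_neg hv]; exact Nat.zero_le _

def col (x : ℕ) : ℕ := lev (Nat.log 2 x) % 3

lemma col_ne (n m : ℕ) (hn : 2 ≤ n) (hm : 2 ^ (n + 512) ≤ m) : col (n ^ m) ≠ col (m ^ n) := by
  set a := Nat.log 2 m with ha
  have h1 : n + 512 ≤ a := Nat.le_log_of_pow_le (by norm_num) hm
  have hm0 : m ≠ 0 := by have := Nat.two_pow_pos (n + 512); omega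
  have h2 : 2 ^ a ≤ m := Nat.pow_log_le_self 2 hm0
  have h3 : m < 2 ^ (a + 1) := Nat.lt_pow_succ_log_self (by norm_num) m
  have hn2 : n ≤ 2 ^ n := Nat.lt_two_pow_self.le
  have ha2 : a < 2 ^ a := Nat.lt_two_pow_self
  -- bounds on the logarithms
  have x1 : m ≤ Nat.log 2 (n ^ m) :=
    Nat.le_log_of_pow_le (by norm_num) (Nat.pow_le_pow_left hn m)
  have x2 : Nat.log 2 (n ^ m) ≤ n * m := by
    calc Nat.log 2 (n ^ m) ≤ Nat.log 2 (2 ^ (n * m)) := by
          apply Nat.log_mono_right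
          rw [pow_mul]; exact Nat.pow_le_pow_left hn2 m
      _ = n * m := Nat.log_pow (by norm_num) _
  have y1 : a ≤ Nat.log 2 (m ^ n) := Nat.log_mono_right (Nat.le_self_pow (by omega) m)
  have y2 : Nat.log 2 (m ^ n) ≤ (a + 1) * n := by
    calc Nat.log 2 (m ^ n) ≤ Nat.log 2 (2 ^ ((a + 1) * n)) := by
          apply Nat.log_mono_right
          rw [pow_mul]; exact Nat.pow_le_pow_left h3.le n
      _ = _ := Nat.log_pow (by norm_num) _
  generalize hx : Nat.log 2 (n ^ m) = X at x1 x2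
  generalize hy : Nat.log 2 (m ^ n) = Y at y1 y2
  have lo : lev Y + 1 ≤ lev X := by
    rw [lev_eq (v := X) (by omega)]
    have : Y ≤ h X := by
      have e1 : h m ≤ h X := h_mono x1
      have e2 : h m = a ^ 2 := rfl
      nlinarith
    have := lev_mono _ _ this
    omega
  have hi : lev X ≤ lev Y + 2 := by
    have e1 : X ≤ 2 ^ (2 * a + 1) := by
      calc X ≤ n * m := x2
        _ ≤ 2 ^ a * 2 ^ (a + 1) := Nat.mul_le_mul (by omega) h3.le
        _ = _ := by ring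
    have e2 : h X ≤ (2 * a + 1) ^ 2 := by
      have := h_mono e1
      rwa [show h (2 ^ (2 * a + 1)) = (2 * a + 1) ^ 2 by rw [h, Nat.log_pow (by norm_num)]] at this
    set b := Nat.log 2 a with hb
    have b1 : 9 ≤ b := Nat.le_log_of_pow_le (by norm_num) (by norm_num; omega)
    have b2 : 2 ^ b ≤ a := Nat.pow_log_le_self 2 (by omega)
    have b3 : a < 2 ^ (b + 1) := Nat.lt_pow_succ_log_self (by norm_num) a
    have e3 : h X < 2 ^ (2 * b + 4) := by
      have : 2 * a + 1 < 2 ^ (b + 2) := by rw [pow_succ 2 (b + 1)]; omega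
      calc h X ≤ (2 * a + 1) ^ 2 := e2
        _ < (2 ^ (b + 2)) ^ 2 := Nat.pow_lt_pow_left this (by norm_num)
        _ = _ := by ring
    have e4 : Nat.log 2 (h X) ≤ 2 * b + 3 := by
      by_cases h0 : h X = 0
      · rw [h0]; simp
      · have := Nat.log_lt_of_lt_pow h0 e3
        omega
    have e5 : h (h X) ≤ Y := by
      calc h (h X) ≤ (2 * b + 3) ^ 2 := Nat.pow_le_pow_left e4 2
        _ ≤ 2 ^ b := sq_le b b1
        _ ≤ Y := b2.trans y1
    have := lev_mono _ _ e5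
    have := lev_le X
    have := lev_le (h X)
    omega
  simp only [col, hx, hy]
  omega

lemma large_mem (q : Ultrafilter ℕ+) (hq : ∀ n, q ≠ pure n) (N : ℕ) :
    {m : ℕ+ | N ≤ (m : ℕ)} ∈ q := by
  have h1 : (q : Filter ℕ+) ≤ Filter.cofinite := by
    rcases q.le_cofinite_or_eq_pure with h | ⟨a, h⟩
    · exact h
    · exact absurd h (hq a)
  apply h1
  rw [Filter.mem_cofinite]
  refine Set.Finite.of_finite_image (f := fun m : ℕ+ => (m : ℕ)) ?_ PNat.coe_injective.injOn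
  refine (Set.finite_lt_nat N).subset ?_
  rintro _ ⟨m, hm, rfl⟩
  simpa using hm

theorem result (p q : Ultrafilter ℕ+) (hp : ∀ n, p ≠ pure n) (hq : ∀ n, q ≠ pure n) :
    E1 p q ≠ E2 p q := by
  intro he
  let U : Ultrafilter ℕ := p.bind fun n => q.map fun m : ℕ+ => col ((n ^ (m : ℕ) : ℕ+) : ℕ)
  have hU : ∀ S : Set ℕ, S ∈ U ↔ {x : ℕ+ | col x ∈ S} ∈ E1 p q := fun S => Iff.rfl
  have h1 : Set.Iio 3 ∈ U := by
    rw [hU]
    have : {x : ℕ+ | col x ∈ Set.Iio 3} = Set.univ :=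
      Set.eq_univ_of_forall fun x => Nat.mod_lt _ (by norm_num)
    rw [this]
    exact Filter.univ_mem' fun n => Filter.univ_mem' fun m => Set.mem_univ _
  obtain ⟨i, -, hi⟩ := Ultrafilter.eq_pure_of_finite_mem (Set.finite_Iio 3) h1
  have h2 : ({i} : Set ℕ) ∈ U := by rw [hi]; simp
  rw [hU] at h2
  have h3 := h2
  rw [he] at h3
  obtain ⟨n, ⟨hn1, hn2⟩, hn3⟩ := Ultrafilter.nonempty_of_mem
    (Filter.inter_mem (Filter.inter_mem h2 h3) (large_mem p hp 2))
  obtain ⟨m, ⟨hm1, hm2⟩, hm3⟩ := Ultrafilter.nonempty_of_mem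
    (Filter.inter_mem (Filter.inter_mem hn1 hn2) (large_mem q hq (2 ^ ((n : ℕ) + 512))))
  have e1 : col ((n : ℕ) ^ (m : ℕ)) = i := by simpa using hm1
  have e2 : col ((m : ℕ) ^ (n : ℕ)) = i := by simpa using hm2
  exact col_ne n m hn3 hm3 (e1.trans e2.symm)

end Pool.Agent.Results.MP_846ee0_co.Never
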